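import Pool.Agent.H689R3.QuadF
import Pool.Agent.H689R3.QuadI

/-!
# Minimal-degree rational maps from products of curves need not be products

For every two curves of gonality two (for instance for every two curves of genus two) there is a
dominant rational map from their product to the plane, of degree the product of the gonalities,
which is not birationally equivalent to a product of rational maps to the projective line.

If `u`, `z` are functions of degree two on the curves `C₁`, `C₂` and `v` is a function on `C₁`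
outside `ℂ(u)` with `v²` in `ℂ(u)`, the map is `(u, z + v)`.
-/

namespace Pool.Agent.Results.MP_5a3d27_ag.NonProductMinimalDegree

open Pool.Agent.H689R3.ProdMaps
open scoped TensorProduct

theorem result :
    -- curves of genus two: `y² = P(x)` with `P` squarefree of degree 5 or 6
    (∀ P₁ P₂ : Polynomial ℂ, Squarefree P₁ → Squarefree P₂ →
      (P₁.natDegree = 5 ∨ P₁.natDegree = 6) → (P₂.natDegree = 5 ∨ P₂.natDegree = 6) →
      ∀ (K₁ K₂ K : Type) [Field K₁] [Algebra ℂ K₁] [Field K₂] [Algebra ℂ K₂]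
        [Field K] [Algebra ℂ K] [Algebra (K₁ ⊗[ℂ] K₂) K] [IsScalarTower ℂ (K₁ ⊗[ℂ] K₂) K]
        [IsFractionRing (K₁ ⊗[ℂ] K₂) K],
        IsDoubleCoverField P₁ K₁ → IsDoubleCoverField P₂ K₂ →
        ∃ φ : PlaneField →ₐ[ℂ] K, mapDegree φ = gonality K₁ * gonality K₂ ∧
          ∀ ψ : PlaneField →ₐ[ℂ] K, IsProductMap K₁ K₂ K ψ → ¬ BirationallyEquivalent φ ψ) ∧
    -- all curves of gonality two
    (∀ (K₁ K₂ K : Type) [Field K₁] [Algebra ℂ K₁] [Field K₂] [Algebra ℂ K₂]
        [Field K] [Algebra ℂ K] [Algebra (K₁ ⊗[ℂ] K₂) K] [IsScalarTower ℂ (K₁ ⊗[ℂ] K₂) K]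
        [IsFractionRing (K₁ ⊗[ℂ] K₂) K],
        IsCurveField K₁ → IsCurveField K₂ → gonality K₁ = 2 → gonality K₂ = 2 →
        ∃ φ : PlaneField →ₐ[ℂ] K, mapDegree φ = gonality K₁ * gonality K₂ ∧
          ∀ ψ : PlaneField →ₐ[ℂ] K, IsProductMap K₁ K₂ K ψ → ¬ BirationallyEquivalent φ ψ) ∧
    -- the curves `y² = P(x)` with `P` squarefree of degree at least 4 have gonality two
    (∀ P : Polynomial ℂ, Squarefree P → 4 ≤ P.natDegree →
      ∀ (F : Type) [Field F] [Algebra ℂ F], IsDoubleCoverField P F →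
        IsCurveField F ∧ gonality F = 2) := by
  refine ⟨?_, ?_, ?_⟩
  · intro P₁ P₂ h1 h2 d1 d2 K₁ K₂ K _ _ _ _ _ _ _ _ _ hK₁ hK₂
    exact Pool.Agent.H689R3.Quad.exists_nonproduct K₁ K₂ K
      (Pool.Agent.H689R3.Quad.doubleCover_gonality h1 (by omega) hK₁).2
      (Pool.Agent.H689R3.Quad.doubleCover_gonality h2 (by omega) hK₂).2
  · intro K₁ K₂ K _ _ _ _ _ _ _ _ _ _ _ g1 g2
    exact Pool.Agent.H689R3.Quad.exists_nonproduct K₁ K₂ K g1 g2
  · intro P hP hdeg F _ _ hF
    exact Pool.Agent.H689R3.Quad.doubleCover_gonality hP hdeg hF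

end Pool.Agent.Results.MP_5a3d27_ag.NonProductMinimalDegree
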